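import Mathlib
import Pool.Agent.H447R2.PE.Meas

set_option autoImplicit false

/-! # Few good approximations: `exp (2 / k)`, and transfer to `π` -/

namespace Pool.Agent.H900.PE

open Real Pool.Agent.H447R2.PE

/-- `θ` has few good approximations: for every `K`, the number of rationals with denominator at most
`Q` within `K / den ^ 2` of `θ` is `O(log Q / log log Q)`. -/
def Few (θ : ℝ) : Prop :=
  ∀ K : ℝ, 0 < K → ∃ C : ℝ, 0 < C ∧ ∀ Q : ℝ, 3 ≤ Q → ∀ T : Finset ℚ,
    (∀ x ∈ T, (x.den : ℝ) ≤ Q ∧ |θ - x| ≤ K / (x.den : ℝ) ^ 2) →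
      (T.card : ℝ) ≤ C * (log Q / log (log Q))

/-- Rationals are separated. -/
theorem sep (x y : ℚ) (hxy : x ≠ y) : 1 / ((x.den : ℝ) * y.den) ≤ |(x : ℝ) - y| := by
  have hx : (0 : ℝ) < x.den := by exact_mod_cast x.pos
  have hy : (0 : ℝ) < y.den := by exact_mod_cast y.pos
  have e : (x : ℝ) - y = ((x.num * y.den - y.num * x.den : ℤ) : ℝ) / (x.den * y.den) := by
    have hx' : (x : ℝ) = x.num / x.den := by exact_mod_cast (Rat.num_div_den x).symm
    have hy' : (y : ℝ) = y.num / y.den := by exact_mod_cast (Rat.num_div_den y).symm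
    rw [hx', hy']
    push_cast
    field_simp
  have hne : (x.num * y.den - y.num * x.den : ℤ) ≠ 0 := by
    intro h0
    apply hxy
    rw [h0] at e
    simp only [Int.cast_zero, zero_div] at e
    have : (x : ℝ) = y := by linarith
    exact_mod_cast this
  have h1 : (1 : ℝ) ≤ |((x.num * y.den - y.num * x.den : ℤ) : ℝ)| := by
    have : (1 : ℤ) ≤ |x.num * y.den - y.num * x.den| := Int.one_le_abs hne
    exact_mod_cast this
  rw [e, abs_div, abs_of_pos (by positivity : (0 : ℝ) < x.den * y.den)]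
  exact div_le_div_of_nonneg_right h1 (by positivity)

/-- Rationals of bounded denominator in a short interval. -/
theorem count_short (T : Finset ℚ) (θ D δ : ℝ) (hD : 0 < D) (hδ : 0 ≤ δ)
    (hT : ∀ x ∈ T, (x.den : ℝ) ≤ D ∧ |θ - x| ≤ δ) : (T.card : ℝ) ≤ 2 * δ * D ^ 2 + 1 := by
  classical
  set f : ℚ → ℤ := fun x => ⌊((x : ℝ) - (θ - δ)) * D ^ 2⌋ with hf
  have hinj : Set.InjOn f T := by
    intro x hx y hy hxy
    by_contra hne
    have h1 := sep x y hne
    have h2 : |((x : ℝ) - (θ - δ)) * D ^ 2 - ((y : ℝ) - (θ - δ)) * D ^ 2| < 1 :=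
      Int.abs_sub_lt_one_of_floor_eq_floor hxy
    have e : ((x : ℝ) - (θ - δ)) * D ^ 2 - ((y : ℝ) - (θ - δ)) * D ^ 2 = ((x : ℝ) - y) * D ^ 2 := by
      ring
    rw [e, abs_mul, abs_of_pos (by positivity : (0 : ℝ) < D ^ 2)] at h2
    have hx0 : (0 : ℝ) < x.den := by exact_mod_cast x.pos
    have hy0 : (0 : ℝ) < y.den := by exact_mod_cast y.pos
    have h3 : (x.den : ℝ) * y.den ≤ D ^ 2 := by
      rw [sq]
      exact mul_le_mul (hT x hx).1 (hT y hy).1 hy0.le hD.le
    have h4 : 1 / D ^ 2 ≤ 1 / ((x.den : ℝ) * y.den) :=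
      one_div_le_one_div_of_le (by positivity) h3
    have h5 : 1 / D ^ 2 ≤ |(x : ℝ) - y| := h4.trans h1
    rw [div_le_iff₀ (by positivity)] at h5
    linarith
  have hsub : T.image f ⊆ Finset.Icc (0 : ℤ) ⌊2 * δ * D ^ 2⌋ := by
    intro j hj
    rw [Finset.mem_image] at hj
    obtain ⟨x, hx, rfl⟩ := hj
    have h1 := abs_le.1 (hT x hx).2
    rw [Finset.mem_Icc]
    have hD2 : (0 : ℝ) ≤ D ^ 2 := by positivity
    constructor
    · apply Int.floor_nonneg.2
      apply mul_nonneg _ hD2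
      linarith [h1.2]
    · apply Int.floor_le_floor
      apply mul_le_mul_of_nonneg_right _ hD2
      linarith [h1.1]
  have h1 : (T.image f).card = T.card := Finset.card_image_of_injOn hinj
  have h2 := Finset.card_le_card hsub
  rw [h1, Int.card_Icc] at h2
  have h0 : 0 ≤ ⌊2 * δ * D ^ 2⌋ := Int.floor_nonneg.2 (by positivity)
  have h3 : (T.card : ℤ) ≤ ⌊2 * δ * D ^ 2⌋ + 1 := by
    have : (T.card : ℤ) ≤ ((⌊2 * δ * D ^ 2⌋ + 1 - 0).toNat : ℤ) := by exact_mod_cast h2
    rw [Int.toNat_of_nonneg (by omega)] at this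
    omega
  have h4 : (T.card : ℝ) ≤ (⌊2 * δ * D ^ 2⌋ : ℝ) + 1 := by exact_mod_cast h3
  have h5 := Int.floor_le (2 * δ * D ^ 2)
  linarith

theorem log_log_pos (Q : ℝ) (hQ : 3 ≤ Q) : 1 < log Q ∧ 0 < log (log Q) := by
  have h1 : 1 < log Q := by
    rw [Real.lt_log_iff_exp_lt (by linarith)]
    have := Real.exp_one_lt_d9
    linarith
  exact ⟨h1, Real.log_pos h1⟩

theorem one_le_L (Q : ℝ) (hQ : 3 ≤ Q) : 1 ≤ log Q / log (log Q) := by
  obtain ⟨h1, h2⟩ := log_log_pos Q hQ
  rw [le_div_iff₀ h2]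
  have := Real.log_le_sub_one_of_pos (by linarith : 0 < log Q)
  linarith

theorem L_mul (Q M : ℝ) (hQ : 3 ≤ Q) (hM : 1 ≤ M) :
    log (M * Q) / log (log (M * Q)) ≤ (1 + log M) * (log Q / log (log Q)) := by
  obtain ⟨h1, h2⟩ := log_log_pos Q hQ
  have hM0 : 0 ≤ log M := Real.log_nonneg hM
  have e : log (M * Q) = log M + log Q := Real.log_mul (by linarith) (by linarith)
  have h3 : log Q ≤ log (M * Q) := by rw [e]; linarith
  have h4 : log (log Q) ≤ log (log (M * Q)) := Real.log_le_log (by linarith) h3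
  calc log (M * Q) / log (log (M * Q)) ≤ log (M * Q) / log (log Q) := by
        apply div_le_div_of_nonneg_left (by linarith) h2 h4
    _ ≤ ((1 + log M) * log Q) / log (log Q) := by
        apply div_le_div_of_nonneg_right _ h2.le
        rw [e]; nlinarith
    _ = _ := by ring

/-- the window of a good approximation to `exp (2 / k)` -/
theorem window (k : ℕ) (hk : 1 ≤ k) (K : ℝ) (hK : 1 ≤ K) (x : ℚ)
    (hx : |exp (2 / (k : ℝ)) - x| ≤ K / (x.den : ℝ) ^ 2) :
    ∃ m : ℕ, 1 ≤ m ∧ (x.den : ℝ) ≤ 2 * K * A k m ∧ (m = 1 ∨ (A k m : ℝ) ≤ 4 * x.den) := by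
  classical
  have hkZ : (1 : ℤ) ≤ (k : ℤ) := by exact_mod_cast hk
  have hden : (1 : ℝ) ≤ x.den := by exact_mod_cast x.pos
  have hex : ∃ m : ℕ, 1 ≤ m ∧ (x.den : ℝ) ≤ 2 * K * A k m := by
    refine ⟨x.den + 2, by omega, ?_⟩
    have h1 := fact_le_A k hkZ x.den
    have h2 : (x.den : ℤ) ≤ ((x.den + 1).factorial : ℤ) := by
      have := Nat.self_le_factorial (x.den + 1)
      exact_mod_cast (by omega : x.den ≤ (x.den + 1).factorial)
    have h3 : (x.den : ℝ) ≤ A k (x.den + 2) := by exact_mod_cast h2.trans h1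
    nlinarith
  set m := Nat.find hex with hm
  obtain ⟨hm1, hmA⟩ := Nat.find_spec hex
  rw [← hm] at hm1 hmA
  refine ⟨m, hm1, hmA, ?_⟩
  rcases Nat.eq_or_lt_of_le hm1 with h | h
  · exact Or.inl h.symm
  right
  have hmin := Nat.find_min hex (m := m - 1) (by rw [← hm]; omega)
  have hlt : 2 * K * A k (m - 1) < x.den := by
    by_contra hcon
    push Not at hcon
    exact hmin ⟨by omega, hcon⟩
  set n := m - 1 with hn
  have hmn : m = n + 1 := by omega
  rw [hmn]
  have hA0 : (0 : ℤ) ≤ A k n := (A_nonneg k hkZ n).1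
  have hA0' : (0 : ℝ) ≤ A k n := by exact_mod_cast hA0
  have hBpos : ∀ j, 0 < B k j ∧ 0 < B k (j + 1) := by
    intro j
    induction j with
    | zero => simp [B]
    | succ j ih =>
      refine ⟨ih.2, ?_⟩
      have e1 : B k (j + 1 + 1) = (2 * j + 3) * k * B k (j + 1) + B k j := rfl
      rw [e1]
      have := ih.1
      have := ih.2
      positivity
  -- not proportional
  have hnp : (x.den : ℤ) * B k n - x.num * A k n ≠ 0 := by
    intro h0
    have h1 : (x.den : ℤ) ∣ x.num * A k n := ⟨B k n, by linarith⟩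
    have h2 : IsCoprime (x.den : ℤ) x.num := by
      have := x.reduced
      rw [Int.isCoprime_iff_gcd_eq_one, Int.gcd_comm]
      simpa [Int.gcd] using this
    have h3 : (x.den : ℤ) ∣ A k n := h2.dvd_of_dvd_mul_left h1
    rcases hA0.lt_or_eq with h4 | h4
    · have h5 := Int.le_of_dvd h4 h3
      have h6 : (x.den : ℝ) ≤ A k n := by exact_mod_cast h5
      nlinarith
    · rw [← h4] at h0
      have h5 := (hBpos n).1
      have h6 : (0 : ℤ) < x.den := by exact_mod_cast x.pos
      have : 0 < (x.den : ℤ) * B k n := mul_pos h6 h5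
      omega
  have h1 : (1 : ℝ) ≤ |(x.den : ℝ) * B k n - x.num * A k n| := by
    have : (1 : ℤ) ≤ |(x.den : ℤ) * B k n - x.num * A k n| := Int.one_le_abs hnp
    exact_mod_cast this
  set w := exp (2 / (k : ℝ)) with hw
  have h3 : |(A k n : ℝ) * w - B k n| = E k n := by
    have h2 := (E_eq k hk n).1
    have : (A k n : ℝ) * w - B k n = (-1) ^ n * E k n := by
      rw [h2, ← hw, ← mul_assoc, ← mul_pow]; norm_num
    rw [this, abs_mul, abs_pow]
    simp [abs_of_pos (E_pos k n hk)]
  have h7 : |(x.den : ℝ) * w - x.num| ≤ K / x.den := by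
    have e : (x.den : ℝ) * w - x.num = x.den * (w - x) := by
      have hx' : (x : ℝ) = x.num / x.den := by exact_mod_cast (Rat.num_div_den x).symm
      rw [hx']
      field_simp
    rw [e, abs_mul, abs_of_pos (by linarith : (0 : ℝ) < x.den)]
    calc (x.den : ℝ) * |w - x| ≤ x.den * (K / (x.den : ℝ) ^ 2) :=
          mul_le_mul_of_nonneg_left hx (by linarith)
      _ = K / x.den := by field_simp
  have h4 : (x.den : ℝ) * B k n - x.num * A k n =
      -(x.den * ((A k n : ℝ) * w - B k n)) + A k n * (x.den * w - x.num) := by ring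
  have h5 : (1 : ℝ) ≤ x.den * E k n + A k n * (K / x.den) := by
    refine h1.trans ?_
    rw [h4]
    refine (abs_add_le _ _).trans ?_
    rw [abs_neg, abs_mul, abs_mul, h3, abs_of_nonneg hA0',
      abs_of_pos (by linarith : (0 : ℝ) < x.den)]
    have := mul_le_mul_of_nonneg_left h7 hA0'
    linarith
  have h6 : (A k n : ℝ) * (K / x.den) ≤ 1 / 2 := by
    rw [← mul_div_assoc, div_le_div_iff₀ (by linarith) (by norm_num)]
    linarith
  have h8 := E_A k hk n
  have h9 : (0 : ℝ) ≤ E k (n + 1) * A k n := mul_nonneg (E_pos k (n + 1) hk).le hA0'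
  have hAn1 : (0 : ℝ) ≤ A k (n + 1) := by exact_mod_cast (A_nonneg k hkZ n).2
  have h10 : E k n * A k (n + 1) ≤ 2 := by linarith
  have h11 : 1 / 2 ≤ x.den * E k n := by linarith
  have h12 : (A k (n + 1) : ℝ) * (1 / 2) ≤ A k (n + 1) * (x.den * E k n) :=
    mul_le_mul_of_nonneg_left h11 hAn1
  have h13 : (A k (n + 1) : ℝ) * (x.den * E k n) = x.den * (E k n * A k (n + 1)) := by ring
  have h14 : (x.den : ℝ) * (E k n * A k (n + 1)) ≤ x.den * 2 :=
    mul_le_mul_of_nonneg_left h10 (by linarith)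
  linarith

/-- `exp (2 / k)` has few good approximations -/
theorem few_exp (k : ℕ) (hk : 1 ≤ k) : Few (exp (2 / (k : ℝ))) := by
  classical
  intro K₀ hK₀
  set K : ℝ := K₀ + 1 with hKdef
  have hK : 1 ≤ K := by linarith
  have hkZ : (1 : ℤ) ≤ (k : ℤ) := by exact_mod_cast hk
  have hk1 : (1 : ℝ) ≤ k := by exact_mod_cast hk
  set w := exp (2 / (k : ℝ)) with hw
  set c : ℝ := 128 * K ^ 3 * (k : ℝ) ^ 2 + 1 with hc
  have hc1 : 1 ≤ c := by
    have : 0 ≤ 128 * K ^ 3 * (k : ℝ) ^ 2 := by positivity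
    linarith
  refine ⟨64 * c, by positivity, ?_⟩
  intro Q hQ T hT
  have hT' : ∀ x ∈ T, (x.den : ℝ) ≤ Q ∧ |w - x| ≤ K / (x.den : ℝ) ^ 2 := by
    intro x hx
    refine ⟨(hT x hx).1, (hT x hx).2.trans ?_⟩
    apply div_le_div_of_nonneg_right (by linarith) (by positivity)
  -- choose the window
  have hch : ∀ x : ℚ, ∃ m : ℕ, x ∈ T → 1 ≤ m ∧ (x.den : ℝ) ≤ 2 * K * A k m ∧
      (m = 1 ∨ (A k m : ℝ) ≤ 4 * x.den) := by
    intro x
    by_cases hx : x ∈ T
    · obtain ⟨m, hm⟩ := window k hk K hK x (hT' x hx).2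
      exact ⟨m, fun _ => hm⟩
    · exact ⟨0, fun h => absurd h hx⟩
  choose f hf using hch
  obtain ⟨hl1, hl2⟩ := log_log_pos Q hQ
  set L := log Q / log (log Q) with hL
  have hL1 : 1 ≤ L := one_le_L Q hQ
  -- the number of windows
  have hwin : ∀ x ∈ T, (f x : ℝ) ≤ 30 * L := by
    intro x hx
    obtain ⟨h1, h2, h3⟩ := hf x hx
    rcases h3 with h3 | h3
    · rw [h3]; push_cast; linarith
    · by_cases hm : f x ≤ 2
      · have : (f x : ℝ) ≤ 2 := by exact_mod_cast hm
        linarith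
      · push Not at hm
        have h4 : ((f x - 1).factorial : ℝ) < 4 * (2 * Q) := by
          have h5 := fact_le_A k hkZ (f x - 2)
          rw [show f x - 2 + 1 = f x - 1 by omega, show f x - 2 + 2 = f x by omega] at h5
          have h6 : ((f x - 1).factorial : ℝ) ≤ A k (f x) := by exact_mod_cast h5
          have := (hT' x hx).1
          linarith
        have h5 := n_le (2 * Q) (by linarith) (f x) (Or.inr h4)
        have hM : 1 ≤ (2 : ℝ) := by norm_num
        have h6 := L_mul Q 2 hQ hM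
        have h7 := log_log_pos (2 * Q) (by linarith)
        have h8 : (f x : ℝ) + 1 ≤ 15 * (log (2 * Q) / log (log (2 * Q))) := by
          rw [← mul_div_assoc, le_div_iff₀ h7.2]
          exact h5
        have h9 : log 2 ≤ 1 := by
          have := Real.log_two_lt_d9
          linarith
        have h10 : (1 + log 2) * L ≤ 2 * L := by nlinarith
        linarith
  -- the fibres
  have hfib : ∀ j ∈ T.image f, (T.filter (fun x => f x = j)).card ≤ ⌊c⌋₊ := by
    intro j _
    apply Nat.le_floor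
    by_cases hne : (T.filter (fun x => f x = j)) = ∅
    · rw [hne]; simp; linarith
    have hne' := Finset.nonempty_iff_ne_empty.2 hne
    obtain ⟨z, hz⟩ := hne'
    rw [Finset.mem_filter] at hz
    obtain ⟨hz1, hz2, hz3⟩ := hf z hz.1
    rw [hz.2] at hz1 hz2 hz3
    have hzd : (1 : ℝ) ≤ z.den := by exact_mod_cast z.pos
    have hApos : (0 : ℝ) < A k j := by
      by_contra hcon
      push Not at hcon
      nlinarith
    by_cases hj1 : j = 1
    · have hA1 : (A k j : ℝ) ≤ k := by
        rw [hj1]; simp [A]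
      have := count_short (T.filter (fun x => f x = j)) w (2 * K * k) K (by positivity)
        (by linarith) (by
          intro x hx
          rw [Finset.mem_filter] at hx
          obtain ⟨h1, h2, h3⟩ := hf x hx.1
          rw [hx.2] at h2
          have hxd : (1 : ℝ) ≤ x.den := by exact_mod_cast x.pos
          refine ⟨h2.trans (mul_le_mul_of_nonneg_left hA1 (by linarith)), ?_⟩
          refine (hT' x hx.1).2.trans ?_
          rw [div_le_iff₀ (by positivity)]
          nlinarith [mul_nonneg (by linarith : (0:ℝ) ≤ K) (by nlinarith : (0:ℝ) ≤ (x.den : ℝ) ^ 2 - 1)])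
      refine this.trans ?_
      rw [hc]
      have h1 : 2 * K * (2 * K * (k : ℝ)) ^ 2 = 8 * K ^ 3 * (k : ℝ) ^ 2 := by ring
      have h2 : 8 * K ^ 3 * (k : ℝ) ^ 2 ≤ 128 * K ^ 3 * (k : ℝ) ^ 2 := by
        have : 0 ≤ K ^ 3 * (k : ℝ) ^ 2 := by positivity
        nlinarith
      linarith
    · have := count_short (T.filter (fun x => f x = j)) w (2 * K * A k j)
        (16 * K / (A k j : ℝ) ^ 2) (by positivity) (by positivity) (by
          intro x hx
          rw [Finset.mem_filter] at hx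
          obtain ⟨h1, h2, h3⟩ := hf x hx.1
          rw [hx.2] at h2 h3
          have h4 := h3.resolve_left hj1
          have hxd : (1 : ℝ) ≤ x.den := by exact_mod_cast x.pos
          refine ⟨h2, ?_⟩
          refine (hT' x hx.1).2.trans ?_
          rw [div_le_div_iff₀ (by positivity) (by positivity)]
          have h5 : (A k j : ℝ) ^ 2 ≤ (4 * (x.den : ℝ)) ^ 2 := by
            apply pow_le_pow_left₀ hApos.le h4
          have h6 : K * (A k j : ℝ) ^ 2 ≤ K * (4 * (x.den : ℝ)) ^ 2 :=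
            mul_le_mul_of_nonneg_left h5 (by linarith)
          calc K * (A k j : ℝ) ^ 2 ≤ K * (4 * (x.den : ℝ)) ^ 2 := h6
            _ = 16 * K * (x.den : ℝ) ^ 2 := by ring)
      refine this.trans ?_
      rw [hc]
      have h1 : 2 * (16 * K / (A k j : ℝ) ^ 2) * (2 * K * A k j) ^ 2 = 128 * K ^ 3 * 1 := by
        field_simp
        ring
      have h2 : 128 * K ^ 3 * 1 ≤ 128 * K ^ 3 * (k : ℝ) ^ 2 := by
        apply mul_le_mul_of_nonneg_left _ (by positivity)
        nlinarith
      linarith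
  have hcard := Finset.card_le_mul_card_image (s := T) (f := f) ⌊c⌋₊ hfib
  have himg : ((T.image f).card : ℝ) ≤ 31 * L := by
    have hsub : T.image f ⊆ Finset.range (⌊30 * L⌋₊ + 1) := by
      intro j hj
      rw [Finset.mem_image] at hj
      obtain ⟨x, hx, rfl⟩ := hj
      rw [Finset.mem_range]
      have := Nat.le_floor (hwin x hx)
      omega
    have h1 := Finset.card_le_card hsub
    rw [Finset.card_range] at h1
    have h2 : ((T.image f).card : ℝ) ≤ (⌊30 * L⌋₊ : ℝ) + 1 := by exact_mod_cast h1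
    have h3 := Nat.floor_le (by positivity : 0 ≤ 30 * L)
    linarith
  have h1 : (T.card : ℝ) ≤ (⌊c⌋₊ : ℝ) * ((T.image f).card : ℝ) := by exact_mod_cast hcard
  have h2 : (⌊c⌋₊ : ℝ) ≤ c := Nat.floor_le (by linarith)
  calc (T.card : ℝ) ≤ (⌊c⌋₊ : ℝ) * ((T.image f).card : ℝ) := h1
    _ ≤ c * (31 * L) := mul_le_mul h2 himg (by positivity) (by linarith)
    _ ≤ 64 * c * L := by
        have : 0 ≤ c * L := by positivity
        nlinarith

end Pool.Agent.H900.PE
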