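import Mathlib
import Pool.Agent.H900.PE.Few

set_option autoImplicit false

/-! # Transfer to `π` along a bilinear relation -/

namespace Pool.Agent.H900.PE

open Real Pool.Agent.H447R2.PE

/-- `θ` has infinitely many approximations better than `C log log q / (q² log q)`. -/
def Often (θ : ℝ) : Prop :=
  ∃ C : ℝ, 0 < C ∧ {x : ℚ | 3 ≤ x.den ∧
    |θ - x| ≤ C * (log (log x.den) / ((x.den : ℝ) ^ 2 * log x.den))}.Infinite

/-- no rational linear relation between `1` and `exp (2 / k)` -/
theorem exp_ne (k : ℕ) (hk : 1 ≤ k) (u v : ℤ) (huv : u ≠ 0 ∨ v ≠ 0) :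
    (u : ℝ) * exp (2 / (k : ℝ)) - v ≠ 0 := by
  intro hz
  have hk1 : (1 : ℝ) ≤ k := by exact_mod_cast hk
  have h1 := exp_measure k hk u v huv (|(u : ℝ)| + 3) (by linarith [abs_nonneg (u : ℝ)])
    (by linarith)
  rw [hz, abs_zero] at h1
  obtain ⟨hy1, h2⟩ := log_log_pos (|(u : ℝ)| + 3) (by linarith [abs_nonneg (u : ℝ)])
  have h3 : 0 < log (log (|(u : ℝ)| + 3)) / (720 * (k : ℝ) ^ 3 * (|(u : ℝ)| + 3) *
      log (|(u : ℝ)| + 3)) := by positivity
  linarith

/-- no rational linear relation between `1` and `π` -/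
theorem pi_ne (u v : ℤ) (huv : u ≠ 0 ∨ v ≠ 0) : (u : ℝ) * π - v ≠ 0 := by
  intro hz
  by_cases hu : u = 0
  · rcases huv with h | h
    · exact h hu
    · rw [hu] at hz
      simp at hz
      exact h hz
  · apply irrational_pi
    refine ⟨(v : ℚ) / u, ?_⟩
    have hu' : (u : ℝ) ≠ 0 := by exact_mod_cast hu
    push_cast
    rw [div_eq_iff hu']
    linarith

section

variable (k : ℕ) (hk : 1 ≤ k) (a b c d : ℤ)
  (h0 : ¬ (a = 0 ∧ b = 0 ∧ c = 0 ∧ d = 0))
  (h : (a : ℝ) + b * exp (2 / (k : ℝ)) + c * π + d * (π * exp (2 / (k : ℝ))) = 0)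

include hk h0 h

theorem cd_ne : (c : ℝ) + d * exp (2 / (k : ℝ)) ≠ 0 := by
  intro hz
  by_cases hcd0 : d ≠ 0 ∨ -c ≠ 0
  · apply exp_ne k hk d (-c) hcd0
    push_cast
    linarith
  · push Not at hcd0
    have hc0 : c = 0 := by omega
    have hd0 : d = 0 := hcd0.1
    rw [hc0, hd0] at h
    by_cases hab : b ≠ 0 ∨ -a ≠ 0
    · apply exp_ne k hk b (-a) hab
      push_cast at h ⊢
      linarith
    · push Not at hab
      exact h0 ⟨by omega, hab.1, hc0, hd0⟩

omit hk in
theorem bd_ne : (b : ℝ) + d * π ≠ 0 := by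
  intro hz
  by_cases hcd0 : d ≠ 0 ∨ -b ≠ 0
  · apply pi_ne d (-b) hcd0
    push_cast
    linarith
  · push Not at hcd0
    have hc0 : b = 0 := by omega
    have hd0 : d = 0 := hcd0.1
    rw [hc0, hd0] at h
    by_cases hab : c ≠ 0 ∨ -a ≠ 0
    · apply pi_ne c (-a) hab
      push_cast at h ⊢
      linarith
    · push Not at hab
      exact h0 ⟨by omega, hc0, hab.1, hd0⟩

theorem det_ne : (a : ℤ) * d - b * c ≠ 0 := by
  intro hz
  have hzR : (a : ℝ) * d - b * c = 0 := by exact_mod_cast hz
  have h1 := cd_ne k hk a b c d h0 h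
  have h2 := bd_ne k a b c d h0 h
  -- `(b + d π) (c + d w) = b c - a d + d * (relation)`
  have h3 : ((b : ℝ) + d * π) * (c + d * exp (2 / (k : ℝ))) = 0 := by
    linear_combination (d : ℝ) * h - hzR
  rcases mul_eq_zero.1 h3 with h4 | h4
  · exact h2 h4
  · exact h1 h4

theorem few_pi (hF : Few (exp (2 / (k : ℝ)))) : Few π := by
  classical
  intro K hK
  have hcd := cd_ne k hk a b c d h0 h
  have hdet := det_ne k hk a b c d h0 h
  set w := exp (2 / (k : ℝ)) with hw
  set ρ := |(c : ℝ) + d * w| with hρ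
  have hρ0 : 0 < ρ := abs_pos.2 hcd
  set M : ℝ := |(b : ℝ)| + |(d : ℝ)| * (4 + K) + 1 with hM
  have hM1 : 1 ≤ M := by
    have h1 := abs_nonneg (b : ℝ)
    have h2 : 0 ≤ |(d : ℝ)| * (4 + K) := mul_nonneg (abs_nonneg _) (by linarith)
    linarith
  have hlM : 0 ≤ log M := Real.log_nonneg hM1
  obtain ⟨C, hC, hCT⟩ := hF (K * ρ * M) (by positivity)
  refine ⟨C * (1 + log M) + 1, by positivity, ?_⟩
  intro Q hQ T hT
  obtain ⟨hl1, hl2⟩ := log_log_pos Q hQ
  have hL1 := one_le_L Q hQ
  set P : ℚ → Prop := fun x => (b : ℚ) + d * x = 0 with hP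
  set g : ℚ → ℚ := fun x => -(a + c * x) / (b + d * x) with hg
  have hsplit := Finset.card_filter_add_card_filter_not (s := T) P
  have hT0 : (T.filter P).card ≤ 1 := by
    rw [Finset.card_le_one]
    intro x hx y hy
    rw [Finset.mem_filter] at hx hy
    have h1 : (b : ℚ) + d * x = 0 := hx.2
    have h2 : (b : ℚ) + d * y = 0 := hy.2
    by_cases hd : d = 0
    · exfalso
      rw [hd] at h1
      simp at h1
      apply hdet
      rw [hd, h1]
      ring
    · have hd' : (d : ℚ) ≠ 0 := by exact_mod_cast hd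
      have h3 : (d : ℚ) * (x - y) = 0 := by linarith
      rcases mul_eq_zero.1 h3 with h4 | h4
      · exact absurd h4 hd'
      · linarith
  set T1 := T.filter (fun x => ¬ P x) with hT1
  have hinj : Set.InjOn g T1 := by
    intro x hx y hy hxy
    have hx' := (Finset.mem_filter.1 (Finset.mem_coe.1 hx)).2
    have hy' := (Finset.mem_filter.1 (Finset.mem_coe.1 hy)).2
    simp only [hP] at hx' hy'
    simp only [hg] at hxy
    rw [div_eq_div_iff hx' hy'] at hxy
    have h1 : ((a : ℚ) * d - b * c) * (x - y) = 0 := by linear_combination hxy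
    have h2 : ((a : ℚ) * d - b * c) ≠ 0 := by exact_mod_cast hdet
    rcases mul_eq_zero.1 h1 with h3 | h3
    · exact absurd h3 h2
    · linarith
  have hcard1 : (T1.image g).card = T1.card := Finset.card_image_of_injOn hinj
  have hmain := hCT (M * Q) (by nlinarith) (T1.image g) (by
    intro y hy
    rw [Finset.mem_image] at hy
    obtain ⟨x, hx, rfl⟩ := hy
    have hx' := Finset.mem_filter.1 hx
    have hxP := hx'.2
    simp only [hP] at hxP
    obtain ⟨hxQ, hxK⟩ := hT x hx'.1
    have hxd : (1 : ℝ) ≤ x.den := by exact_mod_cast x.pos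
    have hxPR : (b : ℝ) + d * x ≠ 0 := by exact_mod_cast hxP
    -- the denominator of `g x`
    have hden : ((g x).den : ℝ) ≤ x.den * |(b : ℝ) + d * x| := by
      have e1 : g x = (((-(a * x.den + c * x.num) : ℤ) : ℚ)) / ((b * x.den + d * x.num : ℤ) : ℚ) := by
        simp only [hg]
        have hxr : (x : ℚ) = x.num / x.den := (Rat.num_div_den x).symm
        have hxd0 : (x.den : ℚ) ≠ 0 := by exact_mod_cast x.den_nz
        have hne2 : ((b * x.den + d * x.num : ℤ) : ℚ) ≠ 0 := by
          intro hz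
          apply hxP
          have : ((b : ℚ) + d * x) * x.den = 0 := by
            push_cast at hz
            have e2 : (d : ℚ) * x * x.den = d * x.num := by
              rw [mul_assoc, Rat.mul_den_eq_num]
            linarith
          exact (mul_eq_zero.1 this).resolve_right hxd0
        rw [div_eq_div_iff hxP hne2]
        push_cast
        have e2 : x * x.den = (x.num : ℚ) := Rat.mul_den_eq_num x
        linear_combination ((a : ℚ) * d - b * c) * e2
      have h1 : (((g x).den : ℕ) : ℤ) ∣ (b * x.den + d * x.num : ℤ) := by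
        rw [e1, ← Rat.divInt_eq_div]
        exact Rat.den_dvd _ _
      have hne3 : (b * x.den + d * x.num : ℤ) ≠ 0 := by
        intro hz
        have hz' : ((b * x.den + d * x.num : ℤ) : ℝ) = 0 := by exact_mod_cast hz
        apply hxPR
        have hxr : (x : ℝ) = x.num / x.den := by exact_mod_cast (Rat.num_div_den x).symm
        rw [hxr]
        push_cast at hz'
        field_simp
        linarith
      have h2 := Int.le_of_dvd (abs_pos.2 hne3) ((dvd_abs _ _).2 h1)
      have h3 : ((g x).den : ℝ) ≤ |((b * x.den + d * x.num : ℤ) : ℝ)| := by exact_mod_cast h2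
      refine h3.trans (le_of_eq ?_)
      have e5 : (x.den : ℝ) * |(b : ℝ) + d * x| = |(x.den : ℝ) * ((b : ℝ) + d * x)| := by
        rw [abs_mul, abs_of_pos (by linarith : (0 : ℝ) < x.den)]
      rw [e5]
      congr 1
      have hxr : (x : ℝ) = x.num / x.den := by exact_mod_cast (Rat.num_div_den x).symm
      rw [hxr]
      push_cast
      field_simp
    have hxabs : |(x : ℝ)| ≤ 4 + K := by
      have h1 : |(x : ℝ)| ≤ |π - x| + |π| := by
        have : (x : ℝ) = -(π - x) + π := by ring
        calc |(x : ℝ)| = |-(π - x) + π| := by rw [← this]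
          _ ≤ |-(π - x)| + |π| := abs_add_le _ _
          _ = _ := by rw [abs_neg]
      have h2 : |π| < 4 := by rw [abs_of_pos Real.pi_pos]; exact Real.pi_lt_four
      have h3 : K / (x.den : ℝ) ^ 2 ≤ K := by
        rw [div_le_iff₀ (by positivity)]
        nlinarith [mul_nonneg hK.le (by nlinarith : (0:ℝ) ≤ (x.den : ℝ) ^ 2 - 1)]
      linarith
    have hbd : |(b : ℝ) + d * x| ≤ M := by
      calc |(b : ℝ) + d * x| ≤ |(b : ℝ)| + |(d : ℝ) * x| := abs_add_le _ _
        _ = |(b : ℝ)| + |(d : ℝ)| * |(x : ℝ)| := by rw [abs_mul]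
        _ ≤ |(b : ℝ)| + |(d : ℝ)| * (4 + K) := by
            have := mul_le_mul_of_nonneg_left hxabs (abs_nonneg (d : ℝ))
            linarith
        _ ≤ M := by rw [hM]; linarith
    have hbd0 : 0 < |(b : ℝ) + d * x| := abs_pos.2 hxPR
    refine ⟨?_, ?_⟩
    · calc ((g x).den : ℝ) ≤ x.den * |(b : ℝ) + d * x| := hden
        _ ≤ Q * M := mul_le_mul hxQ hbd (abs_nonneg _) (by linarith)
        _ = M * Q := mul_comm _ _
    · have e3 : w - (g x : ℝ) = (x - π) * (c + d * w) / (b + d * x) := by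
        simp only [hg]
        push_cast
        rw [eq_div_iff hxPR, sub_mul, div_mul_cancel₀ _ hxPR]
        linear_combination h
      rw [e3, abs_div, abs_mul, ← hρ]
      have hgd : (0 : ℝ) < (g x).den := by exact_mod_cast (g x).pos
      rw [div_le_div_iff₀ hbd0 (by positivity)]
      have h4 : ((g x).den : ℝ) ^ 2 ≤ (x.den * |(b : ℝ) + d * x|) ^ 2 :=
        pow_le_pow_left₀ hgd.le hden 2
      have h5 : |(x : ℝ) - π| * (x.den : ℝ) ^ 2 ≤ K := by
        rw [abs_sub_comm]
        rwa [le_div_iff₀ (by positivity)] at hxK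
      have h6 : 0 ≤ |(x : ℝ) - π| * ρ := by positivity
      calc |(x : ℝ) - π| * ρ * ((g x).den : ℝ) ^ 2
          ≤ |(x : ℝ) - π| * ρ * (x.den * |(b : ℝ) + d * x|) ^ 2 :=
            mul_le_mul_of_nonneg_left h4 h6
        _ = (|(x : ℝ) - π| * (x.den : ℝ) ^ 2) * ρ * |(b : ℝ) + d * x| * |(b : ℝ) + d * x| := by
            ring
        _ ≤ K * ρ * M * |(b : ℝ) + d * x| := by
            apply mul_le_mul_of_nonneg_right _ hbd0.le
            apply mul_le_mul _ hbd hbd0.le (by positivity)
            exact mul_le_mul_of_nonneg_right h5 hρ0.le)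
  rw [hcard1] at hmain
  have hLM := L_mul Q M hQ hM1
  have h1 : (T.card : ℝ) = ((T.filter P).card : ℝ) + (T1.card : ℝ) := by
    rw [hT1, ← Nat.cast_add, hsplit]
  have h2 : ((T.filter P).card : ℝ) ≤ 1 := by exact_mod_cast hT0
  have h3 : C * (log (M * Q) / log (log (M * Q))) ≤ C * ((1 + log M) * (log Q / log (log Q))) :=
    mul_le_mul_of_nonneg_left hLM hC.le
  rw [h1]
  calc ((T.filter P).card : ℝ) + (T1.card : ℝ)
      ≤ 1 + C * ((1 + log M) * (log Q / log (log Q))) := by linarith
    _ ≤ (C * (1 + log M) + 1) * (log Q / log (log Q)) := by nlinarith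

end

end Pool.Agent.H900.PE
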