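import Mathlib
import Pool.Agent.H900.PE.Transfer

set_option autoImplicit false

/-! # Infinitely many very good approximations to `π` along a bilinear relation -/

namespace Pool.Agent.H900.PE

open Real Pool.Agent.H447R2.PE Filter

theorem A_le_pow (k : ℕ) (hk : 1 ≤ k) (n : ℕ) :
    (A k (n + 2) : ℝ) ≤ 3 * (k : ℝ) ^ 2 * (2 * k * ((n : ℝ) + 2)) ^ (n + 2) := by
  have hkZ : (1 : ℤ) ≤ (k : ℤ) := by exact_mod_cast hk
  have hk1 : (1 : ℝ) ≤ k := by exact_mod_cast hk
  induction n with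
  | zero =>
    have h1 : (A k 2 : ℝ) ≤ 3 * (k : ℝ) ^ 2 := by exact_mod_cast (A_two_pos k hkZ).2
    have h2 : (1 : ℝ) ≤ (2 * k * (((0 : ℕ) : ℝ) + 2)) ^ (0 + 2) := by
      apply one_le_pow₀
      push_cast
      nlinarith
    have h3 : (0 : ℝ) ≤ 3 * (k : ℝ) ^ 2 := by positivity
    simp only [zero_add] at h2 ⊢
    nlinarith
  | succ n ih =>
    have h1 : (A k (n + 2 + 1) : ℝ) ≤ (2 * ((n + 2 : ℕ) : ℝ) + 2) * k * A k (n + 2) := by
      exact_mod_cast A_succ_le k hkZ (n + 2) (by omega)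
    have hn0 : (0 : ℝ) ≤ n := Nat.cast_nonneg n
    have e1 : (2 * ((n + 2 : ℕ) : ℝ) + 2) * k = 2 * k * (((n + 1 : ℕ) : ℝ) + 2) := by
      push_cast; ring
    rw [e1] at h1
    have h2 : (2 * k * ((n : ℝ) + 2)) ^ (n + 2) ≤ (2 * k * (((n + 1 : ℕ) : ℝ) + 2)) ^ (n + 2) := by
      apply pow_le_pow_left₀ (by positivity)
      push_cast
      nlinarith
    calc (A k (n + 1 + 2) : ℝ) = A k (n + 2 + 1) := by congr 2
      _ ≤ 2 * k * (((n + 1 : ℕ) : ℝ) + 2) * A k (n + 2) := h1
      _ ≤ 2 * k * (((n + 1 : ℕ) : ℝ) + 2) *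
          (3 * (k : ℝ) ^ 2 * (2 * k * (((n + 1 : ℕ) : ℝ) + 2)) ^ (n + 2)) := by
          apply mul_le_mul_of_nonneg_left _ (by positivity)
          refine ih.trans ?_
          apply mul_le_mul_of_nonneg_left h2 (by positivity)
      _ = _ := by
          rw [show n + 1 + 2 = (n + 2) + 1 by ring, pow_succ (2 * (k : ℝ) * (((n + 1 : ℕ) : ℝ) + 2)) (n + 2)]
          ring

theorem three_le_den (x : ℚ) (hx : |π - x| < 1 / 10) : 3 ≤ x.den := by
  by_contra hcon
  push Not at hcon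
  have hpos := x.pos
  have h1 : ∃ j : ℤ, (2 * x : ℚ) = j := by
    have e2 : x * x.den = (x.num : ℚ) := Rat.mul_den_eq_num x
    have : x.den = 1 ∨ x.den = 2 := by omega
    rcases this with h | h
    · refine ⟨2 * x.num, ?_⟩
      rw [h] at e2
      push_cast at e2 ⊢
      linarith
    · refine ⟨x.num, ?_⟩
      rw [h] at e2
      push_cast at e2 ⊢
      linarith
  obtain ⟨j, hj⟩ := h1
  have hj' : (2 * x : ℝ) = j := by exact_mod_cast hj
  have h2 := abs_lt.1 hx
  have h3 := Real.pi_gt_d2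
  have h4 := Real.pi_lt_d2
  have h5 : (6 : ℝ) < j := by rw [← hj']; linarith [h2.2]
  have h6 : (j : ℝ) < 7 := by rw [← hj']; linarith [h2.1]
  have h7 : (6 : ℤ) < j := by exact_mod_cast h5
  have h8 : j < (7 : ℤ) := by exact_mod_cast h6
  omega

theorem often_pi (k : ℕ) (hk : 1 ≤ k) (a b c d : ℤ)
    (h0 : ¬ (a = 0 ∧ b = 0 ∧ c = 0 ∧ d = 0))
    (h : (a : ℝ) + b * exp (2 / (k : ℝ)) + c * π + d * (π * exp (2 / (k : ℝ))) = 0) :
    Often π := by
  have hkZ : (1 : ℤ) ≤ (k : ℤ) := by exact_mod_cast hk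
  have hk1 : (1 : ℝ) ≤ k := by exact_mod_cast hk
  have hcd := cd_ne k hk a b c d h0 h
  have hbd := bd_ne k a b c d h0 h
  set w := exp (2 / (k : ℝ)) with hw
  set ρ := |(c : ℝ) + d * w| with hρ
  set σ := |(b : ℝ) + d * π| with hσ
  have hρ0 : 0 < ρ := abs_pos.2 hcd
  have hσ0 : 0 < σ := abs_pos.2 hbd
  set R : ℝ := |log (6 * ρ * (k : ℝ) ^ 2)| + log (2 * k) + 1 with hR
  have hR1 : 1 ≤ R := by
    have h1 : 0 ≤ log (2 * (k : ℝ)) := Real.log_nonneg (by linarith)
    have h2 := abs_nonneg (log (6 * ρ * (k : ℝ) ^ 2))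
    linarith
  obtain ⟨hl3, hll3⟩ := log_log_pos 3 le_rfl
  set C : ℝ := 16 * σ * ρ * (R + 1 / log (log 3)) with hC
  have hCpos : 0 < C := by positivity
  refine ⟨C, hCpos, ?_⟩
  -- limits
  have hEt : Tendsto (fun n => E k n) atTop (nhds 0) := by
    have h1 : Tendsto (fun n : ℕ => 2 * exp 2 / (n.factorial : ℝ)) atTop (nhds 0) := by
      apply Tendsto.div_atTop tendsto_const_nhds
      exact tendsto_natCast_atTop_atTop.comp factorial_tendsto_atTop
    exact squeeze_zero (fun n => (E_pos k n hk).le) (fun n => E_le k n hk) h1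
  have key : ∀ ε : ℝ, 0 < ε → ∃ x : ℚ, 3 ≤ x.den ∧ |π - x| < ε ∧
      |π - x| ≤ C * (log (log x.den) / ((x.den : ℝ) ^ 2 * log x.den)) := by
    intro ε hε
    have hev1 : ∀ᶠ n in atTop, |(d : ℝ)| * E k n ≤ ρ / 2 := by
      have h1 : Tendsto (fun n => |(d : ℝ)| * E k n) atTop (nhds 0) := by
        simpa using hEt.const_mul |(d : ℝ)|
      exact h1.eventually_le_const (by positivity)
    have hev2 : ∀ᶠ n in atTop, E k n * (2 * σ / ρ) < min ε (1 / 10) := by
      have h1 : Tendsto (fun n => E k n * (2 * σ / ρ)) atTop (nhds 0) := by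
        simpa using hEt.mul_const (2 * σ / ρ)
      exact h1.eventually_lt_const (by positivity)
    obtain ⟨n, ⟨hn1, hn2⟩, hn3⟩ := ((hev1.and hev2).and (eventually_ge_atTop 3)).exists
    obtain ⟨m, rfl⟩ : ∃ m, n = m + 2 := ⟨n - 2, by omega⟩
    set n := m + 2 with hn
    have hA1 : (1 : ℝ) ≤ A k n := by
      have h1 := fact_le_A k hkZ m
      have h2 : (1 : ℤ) ≤ ((m + 1).factorial : ℤ) := by exact_mod_cast Nat.factorial_pos (m + 1)
      exact_mod_cast h2.trans h1
    have hE := (E_eq k hk n).1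
    have hEpos := E_pos k n hk
    set q : ℤ := c * A k n + d * B k n with hq
    set p : ℤ := -(a * A k n + b * B k n) with hp
    set e : ℝ := (A k n : ℝ) * w - B k n with he
    have heabs : |e| = E k n := by
      have : e = (-1) ^ n * E k n := by
        rw [hE, ← mul_assoc, ← mul_pow]; norm_num
      rw [this, abs_mul, abs_pow]
      simp [abs_of_pos hEpos]
    have hqe : (q : ℝ) = A k n * (c + d * w) - d * e := by
      rw [hq, he]; push_cast; ring
    have hlin : (q : ℝ) * π - p = -(e * (b + d * π)) := by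
      rw [hq, hp, he]; push_cast
      linear_combination (A k n : ℝ) * h
    have hAρ : |(A k n : ℝ) * (c + d * w)| = A k n * ρ := by
      rw [abs_mul, abs_of_pos (by linarith : (0 : ℝ) < A k n)]
    have hde : |(d : ℝ) * e| ≤ ρ / 2 := by rw [abs_mul, heabs]; exact hn1
    have hqlow : (A k n : ℝ) * ρ / 2 ≤ |(q : ℝ)| := by
      have h1 : |(A k n : ℝ) * (c + d * w)| ≤ |(q : ℝ)| + |(d : ℝ) * e| := by
        have : (A k n : ℝ) * (c + d * w) = q + d * e := by rw [hqe]; ring
        rw [this]; exact abs_add_le _ _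
      rw [hAρ] at h1
      nlinarith
    have hqup : |(q : ℝ)| ≤ 2 * ρ * A k n := by
      have h1 : |(q : ℝ)| ≤ |(A k n : ℝ) * (c + d * w)| + |(d : ℝ) * e| := by
        rw [hqe]; exact abs_sub _ _
      rw [hAρ] at h1
      nlinarith
    have hq0 : 0 < |(q : ℝ)| := by
      have : 0 < (A k n : ℝ) * ρ / 2 := by positivity
      linarith
    have hqne : (q : ℝ) ≠ 0 := abs_pos.1 hq0
    have hqneZ : q ≠ 0 := by exact_mod_cast hqne
    set x : ℚ := (p : ℚ) / q with hx
    have hxR : (x : ℝ) = p / q := by rw [hx]; push_cast; rfl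
    have hdist : |π - x| = σ * E k n / |(q : ℝ)| := by
      have h1 : π - x = -(e * (b + d * π)) / q := by
        rw [hxR, ← hlin]; field_simp
      rw [h1, abs_div, abs_neg, abs_mul, heabs, ← hσ, mul_comm]
    have hden : (x.den : ℝ) ≤ |(q : ℝ)| := by
      have h1 : ((x.den : ℕ) : ℤ) ∣ q := by
        rw [hx, ← Rat.divInt_eq_div]; exact Rat.den_dvd _ _
      have h2 := Int.le_of_dvd (abs_pos.2 hqneZ) ((dvd_abs _ _).2 h1)
      exact_mod_cast h2
    have hlt : |π - x| < min ε (1 / 10) := by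
      rw [hdist]
      refine lt_of_le_of_lt ?_ hn2
      rw [div_le_iff₀ hq0]
      have h1 : ρ / 2 ≤ |(q : ℝ)| := by nlinarith
      calc σ * E k n = E k n * (2 * σ / ρ) * (ρ / 2) := by field_simp
        _ ≤ E k n * (2 * σ / ρ) * |(q : ℝ)| := by
            apply mul_le_mul_of_nonneg_left h1 (by positivity)
    have hx3 : 3 ≤ x.den := three_le_den x (lt_of_lt_of_le hlt (min_le_right _ _))
    refine ⟨x, hx3, lt_of_lt_of_le hlt (min_le_left _ _), ?_⟩
    have hx3' : (3 : ℝ) ≤ x.den := by exact_mod_cast hx3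
    -- size of the linear form
    have h8 := E_A k hk n
    have h9 : (0 : ℝ) ≤ E k (n + 1) * A k n := mul_nonneg (E_pos k (n + 1) hk).le (by linarith)
    have hAn1 : (n : ℝ) * A k n ≤ A k (n + 1) := by
      have e1 : A k (m + 1 + 2) = (2 * ((m + 1 : ℕ) : ℤ) + 3) * k * A k (m + 1 + 1) + A k (m + 1) := rfl
      have e2 : A k (n + 1) = (2 * ((m + 1 : ℕ) : ℤ) + 3) * k * A k n + A k (m + 1) := by
        rw [hn]; exact e1
      have h2 : (0 : ℝ) ≤ A k (m + 1) := by exact_mod_cast (A_nonneg k hkZ (m + 1)).1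
      rw [e2]
      push_cast
      have h3 : (n : ℝ) ≤ (2 * ((m : ℝ) + 1) + 3) * k := by
        rw [hn]; push_cast
        nlinarith [(Nat.cast_nonneg m : (0 : ℝ) ≤ m)]
      have h4 : (n : ℝ) * A k n ≤ (2 * ((m : ℝ) + 1) + 3) * k * A k n :=
        mul_le_mul_of_nonneg_right h3 (by linarith)
      linarith
    have hnpos : (3 : ℝ) ≤ n := by exact_mod_cast hn3
    have h10 : E k n * (n * A k n) ≤ 2 := by
      have : E k n * (n * A k n) ≤ E k n * A k (n + 1) :=
        mul_le_mul_of_nonneg_left hAn1 hEpos.le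
      linarith
    have h11 : |π - x| ≤ 16 * σ * ρ / (n * (x.den : ℝ) ^ 2) := by
      rw [hdist, div_le_div_iff₀ hq0 (by positivity)]
      have h12 : (x.den : ℝ) ^ 2 ≤ |(q : ℝ)| * (2 * ρ * A k n) := by
        rw [sq]; exact mul_le_mul hden (hden.trans hqup) (by linarith) hq0.le
      calc σ * E k n * (n * (x.den : ℝ) ^ 2) ≤ σ * E k n * (n * (|(q : ℝ)| * (2 * ρ * A k n))) := by
            apply mul_le_mul_of_nonneg_left _ (by positivity)
            apply mul_le_mul_of_nonneg_left h12 (by linarith)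
        _ = (E k n * (n * A k n)) * (2 * σ * ρ * |(q : ℝ)|) := by ring
        _ ≤ 2 * (2 * σ * ρ * |(q : ℝ)|) := mul_le_mul_of_nonneg_right h10 (by positivity)
        _ ≤ 16 * σ * ρ * |(q : ℝ)| := by
            have : 0 ≤ σ * ρ * |(q : ℝ)| := by positivity
            nlinarith
    -- comparison of `n` with `log den`
    set y := log (x.den : ℝ) with hy
    obtain ⟨hy1, hly⟩ := log_log_pos (x.den : ℝ) hx3'
    have hy3 : log 3 ≤ y := Real.log_le_log (by norm_num) hx3'
    have hly3 : log (log 3) ≤ log y := Real.log_le_log (by linarith) hy3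
    have hlogn : 1 ≤ log (n : ℝ) := by
      have h1 := Real.log_le_log (by norm_num) hnpos
      linarith
    have hyn : y ≤ R * (n * log n) := by
      have h12 : (x.den : ℝ) ≤ (6 * ρ * (k : ℝ) ^ 2) * (2 * k * n) ^ n := by
        refine (hden.trans hqup).trans ?_
        have h13 := A_le_pow k hk m
        have e3 : (n : ℝ) = (m : ℝ) + 2 := by rw [hn]; push_cast; ring
        rw [e3]
        calc 2 * ρ * (A k n : ℝ) ≤ 2 * ρ * (3 * (k : ℝ) ^ 2 * (2 * k * ((m : ℝ) + 2)) ^ (m + 2)) :=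
              mul_le_mul_of_nonneg_left h13 (by positivity)
          _ = _ := by ring
      have h13 : y ≤ log (6 * ρ * (k : ℝ) ^ 2) + n * (log (2 * k) + log n) := by
        rw [hy]
        refine (Real.log_le_log (by linarith) h12).trans (le_of_eq ?_)
        have g1 : (6 * ρ * (k : ℝ) ^ 2) ≠ 0 := by positivity
        have g2 : (2 * (k : ℝ) * n) ^ n ≠ 0 := by positivity
        have g3 : (2 * (k : ℝ)) ≠ 0 := by positivity
        have g4 : (n : ℝ) ≠ 0 := by positivity
        rw [Real.log_mul g1 g2, Real.log_pow, Real.log_mul g3 g4]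
      have h14 := le_abs_self (log (6 * ρ * (k : ℝ) ^ 2))
      have h15 := abs_nonneg (log (6 * ρ * (k : ℝ) ^ 2))
      have h16 : 0 ≤ log (2 * (k : ℝ)) := Real.log_nonneg (by linarith)
      have h17 : 1 ≤ (n : ℝ) * log n := by nlinarith
      have h18 : (n : ℝ) ≤ n * log n := by nlinarith
      rw [hR]
      have h19 : |log (6 * ρ * (k : ℝ) ^ 2)| ≤ |log (6 * ρ * (k : ℝ) ^ 2)| * (n * log n) := by
        nlinarith
      have h20 : log (2 * (k : ℝ)) * n ≤ log (2 * (k : ℝ)) * (n * log n) :=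
        mul_le_mul_of_nonneg_left h18 h16
      calc y ≤ log (6 * ρ * (k : ℝ) ^ 2) + n * (log (2 * k) + log n) := h13
        _ ≤ |log (6 * ρ * (k : ℝ) ^ 2)| * (n * log n) + log (2 * k) * (n * log n) + n * log n := by
            have : (n : ℝ) * (log (2 * k) + log n) = log (2 * k) * n + n * log n := by ring
            rw [this]; linarith
        _ = _ := by ring
    have hyn2 : y ≤ (R + 1 / log (log 3)) * (n * log y) := by
      have hR0 : 0 ≤ R := by linarith
      have hi : 0 ≤ 1 / log (log 3) := by positivity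
      have hn0 : (0 : ℝ) < n := by linarith
      by_cases hc : (n : ℝ) ≤ y
      · have h21 : log (n : ℝ) ≤ log y := Real.log_le_log hn0 hc
        have h22 : R * (n * log n) ≤ R * (n * log y) :=
          mul_le_mul_of_nonneg_left (mul_le_mul_of_nonneg_left h21 hn0.le) hR0
        have h23 : 0 ≤ 1 / log (log 3) * (n * log y) := by positivity
        linarith
      · push Not at hc
        have h21 : (n : ℝ) ≤ 1 / log (log 3) * (n * log y) := by
          rw [one_div, inv_mul_eq_div, le_div_iff₀ hll3]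
          exact mul_le_mul_of_nonneg_left hly3 hn0.le
        have h23 : 0 ≤ R * (n * log y) := by positivity
        linarith
    refine h11.trans ?_
    have hn0 : (0 : ℝ) < n := by linarith
    have hy0 : 0 < y := by linarith
    rw [hC, ← mul_div_assoc, div_le_div_iff₀ (by positivity) (by positivity)]
    have h24 : 0 ≤ 16 * σ * ρ * (x.den : ℝ) ^ 2 := by positivity
    calc 16 * σ * ρ * ((x.den : ℝ) ^ 2 * y) = 16 * σ * ρ * (x.den : ℝ) ^ 2 * y := by ring
      _ ≤ 16 * σ * ρ * (x.den : ℝ) ^ 2 * ((R + 1 / log (log 3)) * (n * log y)) :=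
          mul_le_mul_of_nonneg_left hyn2 h24
      _ = _ := by ring
  -- infinitely many
  intro hfin
  have hpos : ∀ x : ℚ, 0 < |π - x| := by
    intro x
    rw [abs_pos, sub_ne_zero]
    intro hx
    exact irrational_pi ⟨x, hx.symm⟩
  obtain ⟨x₀, hx₀3, _, hx₀⟩ := key 1 one_pos
  obtain ⟨x₁, hx₁, hmin⟩ := Set.exists_min_image _ (fun x : ℚ => |π - x|) hfin ⟨x₀, hx₀3, hx₀⟩
  obtain ⟨x₂, hx₂3, hx₂lt, hx₂⟩ := key |π - x₁| (hpos x₁)
  have := hmin x₂ ⟨hx₂3, hx₂⟩
  linarith

/-- the dichotomy -/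
theorem dichotomy (k : ℕ) (hk : 1 ≤ k) :
    LinearIndependent ℚ ![1, exp (2 / (k : ℝ)), π, π * exp (2 / (k : ℝ))] ∨
      (Few π ∧ Often π) := by
  by_cases h : LinearIndependent ℚ ![1, exp (2 / (k : ℝ)), π, π * exp (2 / (k : ℝ))]
  · exact Or.inl h
  · right
    rw [← LinearIndependent.iff_fractionRing ℤ ℚ, Fintype.linearIndependent_iff] at h
    push Not at h
    obtain ⟨g, hg, i, hi⟩ := h
    have hsum : (g 0 : ℝ) + g 1 * exp (2 / (k : ℝ)) + g 2 * π + g 3 * (π * exp (2 / (k : ℝ))) = 0 := by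
      rw [Fin.sum_univ_four] at hg
      simpa using hg
    have h0 : ¬ (g 0 = 0 ∧ g 1 = 0 ∧ g 2 = 0 ∧ g 3 = 0) := by
      rintro ⟨h0, h1, h2, h3⟩
      fin_cases i
      · exact hi h0
      · exact hi h1
      · exact hi h2
      · exact hi h3
    exact ⟨few_pi k hk _ _ _ _ h0 hsum (few_exp k hk), often_pi k hk _ _ _ _ h0 hsum⟩

end Pool.Agent.H900.PE
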